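import Pool.Agent.Helper79.PN.Lem

set_option autoImplicit false

/-!
ADJ: the adjacency operator.
-/

open scoped Classical

namespace Pool.Agent.Helper97.PN

open Pool.Agent.Helper79.PN

theorem adj_shift {a : Lam → ℝ} (ha : Sq a) (v : Lam) : Summable fun K => a (K + v) ^ 2 :=
  (Equiv.addRight v).summable_iff.2 ha

theorem adj_mul {a b : Lam → ℝ} (ha : Sq a) (hb : Sq b) (v : Lam) :
    Summable fun K => a K * b (K + v) := by
  refine Summable.of_norm_bounded (ha.add (adj_shift hb v)) fun K => ?_
  rw [Real.norm_eq_abs, abs_mul]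
  have h3 := sq_nonneg (|a K| - |b (K + v)|)
  have h4 := sq_abs (a K)
  have h5 := sq_abs (b (K + v))
  nlinarith [abs_nonneg (a K), abs_nonneg (b (K + v))]

theorem adj_mul' {a b : Lam → ℝ} (ha : Sq a) (hb : Sq b) (v : Lam) :
    Summable fun K => a K * b (K - v) := by
  have := adj_mul ha hb (-v)
  simpa only [sub_eq_add_neg] using this

theorem adj_tsum {a b : Lam → ℝ} (ha : Sq a) (hb : Sq b) : ∑' K, a K * adj b K =
    ∑ i, (∑' K, a K * b (K + e i) + ∑' K, a K * b (K - e i)) := by
  have h1 : ∀ i, Summable fun K => a K * b (K + e i) + a K * b (K - e i) := fun i =>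
    (adj_mul ha hb (e i)).add (adj_mul' ha hb (e i))
  have h2 : ∀ i, ∑' K, (a K * b (K + e i) + a K * b (K - e i)) =
      ∑' K, a K * b (K + e i) + ∑' K, a K * b (K - e i) := fun i =>
    (adj_mul ha hb (e i)).tsum_add (adj_mul' ha hb (e i))
  simp only [← h2]
  rw [← Summable.tsum_finsetSum fun i _ => h1 i]
  refine tsum_congr fun K => ?_
  unfold adj
  rw [Finset.mul_sum]
  exact Finset.sum_congr rfl fun i _ => by ring

theorem adj_sh (a b : Lam → ℝ) (v : Lam) : ∑' K, a K * b (K - v) = ∑' K, b K * a (K + v) := by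
  rw [← (Equiv.addRight v).tsum_eq fun K => a K * b (K - v)]
  refine tsum_congr fun K => ?_
  simp only [Equiv.coe_addRight, add_sub_cancel_right]
  ring

theorem st_ADJ (hSMT : ST_SMT) : ST_ADJ := by
  refine ⟨?_, ?_, ?_, ?_, ?_⟩
  · intro a ha
    have h1 : Summable fun K => 10 * ∑ i, (a (K + e i) ^ 2 + a (K - e i) ^ 2) := by
      refine Summable.mul_left 10 (summable_sum fun i _ => ?_)
      refine (adj_shift ha (e i)).add ?_
      have := adj_shift ha (-e i)
      simpa only [sub_eq_add_neg] using this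
    refine Summable.of_nonneg_of_le (fun K => sq_nonneg _) (fun K => ?_) h1
    unfold adj
    have h2 := sq_sum_le_card_mul_sum_sq (s := (Finset.univ : Finset (ZMod 5)))
      (f := fun i => a (K + e i) + a (K - e i))
    rw [Finset.card_univ, ZMod.card] at h2
    have h3 : ∑ i : ZMod 5, (a (K + e i) + a (K - e i)) ^ 2 ≤
        ∑ i : ZMod 5, 2 * (a (K + e i) ^ 2 + a (K - e i) ^ 2) :=
      Finset.sum_le_sum fun i _ => by nlinarith [sq_nonneg (a (K + e i) - a (K - e i))]
    rw [← Finset.mul_sum] at h3
    push_cast at h2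
    linarith
  · intro a b ha hb
    rw [adj_tsum ha hb, adj_tsum hb ha]
    refine Finset.sum_congr rfl fun i _ => ?_
    rw [adj_sh a b, adj_sh b a, add_comm]
  · intro a ha
    rw [adj_tsum ha ha]
    have h1 : Summable fun z : Lam × ZMod 5 => a z.1 * a (z.1 + e z.2) := by
      have := hSMT.2.1 a a (fun _ => 1) (fun _ => 0) e ha ha (fun _ => by simp)
      simpa using this
    rw [h1.tsum_prod]
    have h2 : ∀ K : Lam, ∑' i : ZMod 5, a K * a (K + e i) = ∑ i, a K * a (K + e i) := fun K =>
      tsum_fintype _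
    simp only [h2]
    rw [Summable.tsum_finsetSum fun i _ => adj_mul ha ha (e i), Finset.mul_sum]
    refine Finset.sum_congr rfl fun i _ => ?_
    rw [adj_sh a a]
    ring
  · intro P K
    have hd : dg P K = ∑ i, (ind (InV P (K + e i)) + ind (InV P (K - e i))) := rfl
    refine ⟨?_, ?_, ?_⟩
    · rw [hd]
      exact Finset.sum_nonneg fun i _ => add_nonneg (ind_nonneg _) (ind_nonneg _)
    · have h : ∑ i, (ind (InV P (K + e i)) + ind (InV P (K - e i))) ≤ ∑ _i : ZMod 5, (2 : ℝ) :=
        Finset.sum_le_sum fun i _ => by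
          linarith [ind_le_one (InV P (K + e i)), ind_le_one (InV P (K - e i))]
      rw [← hd] at h
      rw [Finset.sum_const, Finset.card_univ, ZMod.card] at h
      norm_num at h
      exact h
    · unfold dg adj
      refine Finset.sum_congr rfl fun i _ => ?_
      simp only [inv_mir']
      rw [ show -(-K + e i) = K - e i by abel,
        show -(-K - e i) = K + e i by abel, add_comm]
  · intro a K
    unfold adj ng
    refine Finset.sum_congr rfl fun i _ => ?_
    rw [show -(-K + e i) = K - e i by abel, show -(-K - e i) = K + e i by abel, add_comm]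

end Pool.Agent.Helper97.PN
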