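import Pool.Agent.Helper79.PN.Lem

set_option autoImplicit false

/-!
NB2: neighbours of the vertices of degree 3, index 2.
-/

open scoped Classical

namespace Pool.Agent.Helper97.PN

open Pool.Agent.Helper79.PN

theorem st_NB2 : ST_NB2 := by
  intro P w k h
  obtain ⟨hn, hv, h2, h3⟩ := h
  have g1 := g_gt
  have g2 := g_lt
  have v := w2 hn hv
  obtain ⟨v0, v0a, v0b, v0c, v0d, v0e⟩ := v k
  obtain ⟨v1, v1a, v1b, v1c, v1d, v1e⟩ := v (k + 1)
  obtain ⟨v4, v4a, v4b, v4c, v4d, v4e⟩ := v (k - 1)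
  obtain ⟨v2, v2a, v2b, v2c, v2d, v2e⟩ := v (k + 2)
  obtain ⟨v3, v3a, v3b, v3c, v3d, v3e⟩ := v (k - 2)
  obtain ⟨a1, a2, a3, a4, a5⟩ := P.rel0 w k
  obtain ⟨b1, b2, b3, b4, b5⟩ := P.relg w k
  obtain ⟨m1, m2⟩ := gm h2
  obtain ⟨m3, m4⟩ := gm h3
  have hr := P.rel2 w k
  have hs := g_sq
  -- `h0 > (g - 1)`
  have c0 : 1 < g * P.h w k := by linarith
  have c0' : g - 1 < P.h w k := by
    obtain ⟨-, h4⟩ := gm c0
    have e3 : (g - 1) * (g * P.h w k) = P.h w k := by linear_combination (P.h w k) * hs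
    rw [e3, mul_one] at h4
    exact h4
  have c1 : P.h w (k + 1) = (g - 1) * P.h w (k + 2) - P.h w (k - 2) := by linarith
  have c4 : P.h w (k - 1) = (g - 1) * P.h w (k - 2) - P.h w (k + 2) := by linarith
  have d2 : -g < P.h w (k + 2) := by linarith
  have d3 : -g < P.h w (k - 2) := by linarith
  have e1 : (g - 1) * -g = -1 := by linear_combination -hs
  have f1 : -1 / 2 < P.h w (k + 1) := by
    obtain ⟨-, h4⟩ := gm d2
    rw [e1] at h4
    linarith
  have f4 : -1 / 2 < P.h w (k - 1) := by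
    obtain ⟨-, h4⟩ := gm d3
    rw [e1] at h4
    linarith
  have n0 : P.n (w - e k) = 1 := by rw [P.n_sub, hn]; rfl
  have n2 : P.n (w + e (k + 2)) = 3 := by rw [P.n_add, hn]; rfl
  have n3 : P.n (w + e (k - 2)) = 3 := by rw [P.n_add, hn]; rfl
  obtain ⟨s0, s1, s4, s2, s3⟩ := P.stp w k
  obtain ⟨t0, t1, t4, t2, t3⟩ := P.stp1 w k
  obtain ⟨u0, u1, u4, u2, u3⟩ := P.stp4 w k
  obtain ⟨p0, p1, p4, p2, p3⟩ := P.stp2 w k
  obtain ⟨q0, q1, q4, q2, q3⟩ := P.stp3 w k
  have r0 : P.h (w - e k) k = P.h w k - 1 := by rw [P.h_sub_add, s0]; ring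
  have r1 : P.h (w - e k) (k + 1) = P.h w (k + 1) - (g - 1) / 2 := by rw [P.h_sub_add, s1]; ring
  have r4 : P.h (w - e k) (k - 1) = P.h w (k - 1) - (g - 1) / 2 := by rw [P.h_sub_add, s4]; ring
  have r2 : P.h (w - e k) (k + 2) = P.h w (k + 2) + g / 2 := by rw [P.h_sub_add, s2]; ring
  have r3 : P.h (w - e k) (k - 2) = P.h w (k - 2) + g / 2 := by rw [P.h_sub_add, s3]; ring
  refine ⟨(inv1 n0).2 (all5 k ?_ ?_ ?_ ?_ ?_), (inv3 n2).2 (all5 k ?_ ?_ ?_ ?_ ?_),
    (inv3 n3).2 (all5 k ?_ ?_ ?_ ?_ ?_), ?_, ?_, ?_, ?_⟩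
  iterate 15 linarith
  · rw [isT_1 n0]
    rintro ⟨j, -, -, x, y⟩
    rcases cas5 k j with h | h | h | h | h <;> rw [h] at x y <;>
      (try simp only [p1p2, p1m2, m1p2, m1m2, p2p2, p2m2, m2p2, m2m2] at x y) <;> linarith
  · rw [isT_3 n2]
    rintro ⟨j, -, -, x, y⟩
    rw [Pen.mir_h, neg_neg] at x y
    rcases cas5 k j with h | h | h | h | h <;> rw [h] at x y <;>
      (try simp only [p1p2, p1m2, m1p2, m1m2, p2p2, p2m2, m2p2, m2m2] at x y) <;> linarith
  · rw [isT_3 n3]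
    rintro ⟨j, -, -, x, y⟩
    rw [Pen.mir_h, neg_neg] at x y
    rcases cas5 k j with h | h | h | h | h <;> rw [h] at x y <;>
      (try simp only [p1p2, p1m2, m1p2, m1m2, p2p2, p2m2, m2p2, m2m2] at x y) <;> linarith
  · intro a ha
    have z0 : a (w + e k) = 0 := by
      refine ha _ fun hi => ?_
      have := (inv3 (by rw [P.n_add, hn]; rfl)).1 hi (k + 2)
      linarith
    have z1 : a (w + e (k + 1)) = 0 := by
      refine ha _ fun hi => ?_
      have := (inv3 (by rw [P.n_add, hn]; rfl)).1 hi (k - 2)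
      linarith
    have z4 : a (w + e (k - 1)) = 0 := by
      refine ha _ fun hi => ?_
      have := (inv3 (by rw [P.n_add, hn]; rfl)).1 hi (k + 2)
      linarith
    have y1 : a (w - e (k + 1)) = 0 := by
      refine ha _ fun hi => ?_
      have := (inv1 (by rw [P.n_sub, hn]; rfl)).1 hi (k + 2)
      rw [P.h_sub_add, t2] at this
      linarith
    have y4 : a (w - e (k - 1)) = 0 := by
      refine ha _ fun hi => ?_
      have := (inv1 (by rw [P.n_sub, hn]; rfl)).1 hi (k - 2)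
      rw [P.h_sub_add, u3] at this
      linarith
    have y2 : a (w - e (k + 2)) = 0 := by
      refine ha _ fun hi => ?_
      have := (inv1 (by rw [P.n_sub, hn]; rfl)).1 hi (k + 2)
      rw [P.h_sub_add, p2] at this
      linarith
    have y3 : a (w - e (k - 2)) = 0 := by
      refine ha _ fun hi => ?_
      have := (inv1 (by rw [P.n_sub, hn]; rfl)).1 hi (k - 2)
      rw [P.h_sub_add, q3] at this
      linarith
    unfold adj
    rw [sum5 k, z0, z1, z4, y1, y4, y2, y3]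
    ring

end Pool.Agent.Helper97.PN
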