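import Pool.Agent.Helper79.PN.Lem

set_option autoImplicit false

/-!
SMT: tools for sums over `Lam × ZMod 5`.
-/

open scoped Classical

namespace Pool.Agent.Helper97.PN

open Pool.Agent.Helper79.PN

/-- shift -/
def eqv (φ : ZMod 5 → Lam) (t : ZMod 5) : Lam × ZMod 5 ≃ Lam × ZMod 5 where
  toFun z := (z.1 + φ z.2, z.2 + t)
  invFun z := (z.1 - φ (z.2 - t), z.2 - t)
  left_inv z := by simp
  right_inv z := by simp

theorem tsum_eqv (F : Lam × ZMod 5 → ℝ) (φ : ZMod 5 → Lam) (t : ZMod 5) :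
    ∑' z : Lam × ZMod 5, F (z.1 + φ z.2, z.2 + t) = ∑' z, F z :=
  (eqv φ t).tsum_eq F

theorem sq_prod {a : Lam → ℝ} (ha : Sq a) : Summable fun z : Lam × ZMod 5 => a z.1 ^ 2 := by
  rw [summable_prod_of_nonneg (fun z => by positivity)]
  refine ⟨fun K => ⟨_, hasSum_fintype _⟩, ?_⟩
  have h : (fun K : Lam => ∑' _ : ZMod 5, a K ^ 2) = fun K => (5 : ℝ) * a K ^ 2 := by
    funext K
    rw [tsum_fintype, Finset.sum_const, Finset.card_univ, ZMod.card]
    simp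
  exact h ▸ ha.mul_left 5

theorem sq_shift {a : Lam → ℝ} (ha : Sq a) (φ : ZMod 5 → Lam) :
    Summable fun z : Lam × ZMod 5 => a (z.1 + φ z.2) ^ 2 :=
  (eqv φ 0).summable_iff.2 (sq_prod ha)

theorem sum_ab {a b : Lam → ℝ} {c : Lam × ZMod 5 → ℝ} (φ ψ : ZMod 5 → Lam) (ha : Sq a)
    (hb : Sq b) (hc : ∀ z, |c z| ≤ 1) :
    Summable fun z : Lam × ZMod 5 => c z * (a (z.1 + φ z.2) * b (z.1 + ψ z.2)) := by
  refine Summable.of_norm_bounded ((sq_shift ha φ).add (sq_shift hb ψ)) fun z => ?_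
  rw [Real.norm_eq_abs, abs_mul, abs_mul]
  have h1 := hc z
  have h2 : 0 ≤ |a (z.1 + φ z.2)| * |b (z.1 + ψ z.2)| := by positivity
  have h3 := sq_nonneg (|a (z.1 + φ z.2)| - |b (z.1 + ψ z.2)|)
  have h4 := sq_abs (a (z.1 + φ z.2))
  have h5 := sq_abs (b (z.1 + ψ z.2))
  nlinarith

theorem tsum_sq {a : Lam → ℝ} {c : Lam × ZMod 5 → ℝ} (φ : ZMod 5 → Lam) (ha : Sq a)
    (hc : ∀ z, |c z| ≤ 1) : (Summable fun z : Lam × ZMod 5 => c z * a (z.1 + φ z.2) ^ 2) ∧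
    ∑' z : Lam × ZMod 5, c z * a (z.1 + φ z.2) ^ 2 =
      ∑' K, (∑ m, c (K - φ m, m)) * a K ^ 2 := by
  have h1 : Summable fun z : Lam × ZMod 5 => c z * a (z.1 + φ z.2) ^ 2 := by
    have := sum_ab (c := c) φ φ ha ha hc
    simpa only [pow_two] using this
  refine ⟨h1, ?_⟩
  set F : Lam × ZMod 5 → ℝ := fun z => c (z.1 - φ z.2, z.2) * a z.1 ^ 2 with hF
  have h2 : (fun z : Lam × ZMod 5 => c z * a (z.1 + φ z.2) ^ 2) =
      fun z => F (z.1 + φ z.2, z.2 + 0) := by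
    funext z
    simp [hF]
  have h3 : Summable F := by
    have := h1
    rw [h2] at this
    exact (eqv φ 0).summable_iff.1 this
  rw [h2, tsum_eqv F φ 0, h3.tsum_prod]
  refine tsum_congr fun K => ?_
  rw [tsum_fintype, Finset.sum_mul]

theorem st_SMT : ST_SMT := by
  refine ⟨fun a ha => ⟨?_, ?_⟩, ?_, ?_, tsum_eqv⟩
  · exact (Equiv.neg Lam).summable_iff.2 ha
  · exact (Equiv.neg Lam).tsum_eq fun K => a K ^ 2
  · intro a b c φ ψ ha hb hc
    exact sum_ab φ ψ ha hb hc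
  · intro a b c φ ψ ha hb hc0 hc1 p q hp hq hpq
    have hc : ∀ z, |c z| ≤ 1 := fun z => by rw [abs_of_nonneg (hc0 z)]; exact hc1 z
    obtain ⟨x1, x2⟩ := tsum_sq (c := c) φ ha hc
    obtain ⟨y1, y2⟩ := tsum_sq (c := c) ψ hb hc
    have z1 := sum_ab (c := c) φ ψ ha hb hc
    rw [← x2, ← y2, ← tsum_mul_left, ← tsum_mul_left]
    have h1 : 0 ≤ ∑' z : Lam × ZMod 5, (c z * (a (z.1 + φ z.2) * b (z.1 + ψ z.2)) +
        (p * (c z * a (z.1 + φ z.2) ^ 2) + q * (c z * b (z.1 + ψ z.2) ^ 2))) := by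
      refine tsum_nonneg fun z => ?_
      have h2 := hc0 z
      have h3 : 0 ≤ a (z.1 + φ z.2) * b (z.1 + ψ z.2) + (p * a (z.1 + φ z.2) ^ 2 +
          q * b (z.1 + ψ z.2) ^ 2) := by
        set s := a (z.1 + φ z.2)
        set t := b (z.1 + ψ z.2)
        have hp0 : 0 < p := by
          rcases hp.lt_or_eq with h | h
          · exact h
          · rw [← h] at hpq
            norm_num at hpq
        have h4 : 0 ≤ p * (s * t + (p * s ^ 2 + q * t ^ 2)) := by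
          nlinarith [sq_nonneg (2 * p * s + t), sq_nonneg t]
        exact nonneg_of_mul_nonneg_right h4 hp0
      calc (0 : ℝ) ≤ c z * (a (z.1 + φ z.2) * b (z.1 + ψ z.2) + (p * a (z.1 + φ z.2) ^ 2 +
          q * b (z.1 + ψ z.2) ^ 2)) := mul_nonneg h2 h3
        _ = _ := by ring
    rw [z1.tsum_add ((x1.mul_left p).add (y1.mul_left q)),
      (x1.mul_left p).tsum_add (y1.mul_left q)] at h1
    linarith

end Pool.Agent.Helper97.PN
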